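import Pool.Agent.WAQ.StmtsL

/-!
# Squad WAQ, row LIN: linear combinations in the kernel of reduction
-/

set_option autoImplicit false

namespace Pool.Agent.WAQ.H80

open Classical Pool.Agent.WAQ

variable [Par]

/-- the bound for the level of a point of the kernel of reduction -/
theorem level_le (zeq : ZeqStmt) {F : Type} [NormedField F]
    {ϖ : ℤ} (h : IsLoc F ϖ) {d : F} (hd : d ≠ 0) (P : Pt d) (hP : Big 1 P) :
    ‖d‖ ^ 2 * ‖zs P‖ ^ 4 ≤ 1 := by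
  by_cases h0 : P = 0
  · rw [h0, zs_zero]; simp
  rcases hP with hP | hP
  · exact absurd hP h0
  rcases P with _ | ⟨X, Y, hn⟩
  · exact absurd rfl h0
  · have hd' : 0 < ‖d‖ := norm_pos_iff.2 hd
    have h1 : ‖d‖ < ‖X‖ := by
      change 1 < ‖X / d‖ at hP
      rw [norm_div, one_lt_div hd'] at hP
      exact hP
    obtain ⟨-, -, -, h2, h3, -⟩ := zeq F ϖ h d X Y hd hn h1
    rw [zs_some]
    have h4 : 0 ≤ ‖d‖ * ‖(X - d * cc F) / Y‖ ^ 2 := by positivity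
    have h5 : ‖d‖ * ‖(X - d * cc F) / Y‖ ^ 2 ≤ 1 := h2.trans h3.le
    calc ‖d‖ ^ 2 * ‖(X - d * cc F) / Y‖ ^ 4 =
          (‖d‖ * ‖(X - d * cc F) / Y‖ ^ 2) * (‖d‖ * ‖(X - d * cc F) / Y‖ ^ 2) := by ring
      _ ≤ 1 * 1 := mul_le_mul h5 h5 h4 zero_le_one
      _ = 1 := one_mul 1

theorem level_sm (zeq : ZeqStmt) (zsl : ZslStmt) {F : Type} [NormedField F]
    {ϖ : ℤ} (h : IsLoc F ϖ) {d : F} (hd : d ≠ 0)
    (a : ℤ) (P : Pt d) (hP : Big 1 P) : ‖zs (sm a P)‖ ≤ ‖zs P‖ := by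
  obtain ⟨-, h1⟩ := zsl F ϖ h d hd a P hP
  have h2 : zs (sm a P) = (zs (sm a P) - am F a * zs P) + am F a * zs P := by ring
  rw [h2]
  refine (h.ultra _ _).trans (max_le (h1.trans ?_) ?_)
  · calc ‖d‖ ^ 2 * ‖zs P‖ ^ 5 = (‖d‖ ^ 2 * ‖zs P‖ ^ 4) * ‖zs P‖ := by ring
      _ ≤ 1 * ‖zs P‖ := mul_le_mul_of_nonneg_right (level_le zeq h hd P hP) (norm_nonneg _)
      _ = ‖zs P‖ := one_mul _
  · rw [norm_mul]
    calc _ ≤ 1 * ‖zs P‖ := mul_le_mul_of_nonneg_right (h.int a) (norm_nonneg _)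
      _ = ‖zs P‖ := one_mul _

/-- **LIN** -/
theorem lin (zeq : ZeqStmt) (zal : ZalStmt) (zsl : ZslStmt) : LinStmt := by
  intro F _ ϖ h d hd a b P Q hP hQ hPQ
  obtain ⟨ha, ha'⟩ := zsl F ϖ h d hd a P hP
  obtain ⟨hb, hb'⟩ := zsl F ϖ h d hd b Q hQ
  obtain ⟨hs, hs'⟩ := zal F ϖ h d hd _ _ ha hb
  refine ⟨hs, ?_⟩
  have h1 := level_sm zeq zsl h hd a P hP
  have h2 := (level_sm zeq zsl h hd b Q hQ).trans hPQ
  have hmono : ∀ t : ℝ, 0 ≤ t → t ≤ ‖zs P‖ → ‖d‖ ^ 2 * t ^ 5 ≤ ‖d‖ ^ 2 * ‖zs P‖ ^ 5 :=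
    fun t ht hle => mul_le_mul_of_nonneg_left (pow_le_pow_left₀ ht hle 5) (by positivity)
  have h3 := hs'.trans (hmono _ (le_max_of_le_left (norm_nonneg _)) (max_le h1 h2))
  have h4 := hb'.trans (hmono _ (norm_nonneg _) hPQ)
  have h5 : zs (sm a P + sm b Q) - (am F a * zs P + am F b * zs Q) =
      (zs (sm a P + sm b Q) - zs (sm a P) - zs (sm b Q)) +
      ((zs (sm a P) - am F a * zs P) + (zs (sm b Q) - am F b * zs Q)) := by ring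
  rw [h5]
  exact (h.ultra _ _).trans (max_le h3 ((h.ultra _ _).trans (max_le ha' h4)))

end Pool.Agent.WAQ.H80
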